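import Pool.Agent.Helper31.TW.St2

set_option autoImplicit false

/-!
Project TW (MP_434a84_lc): module DST (the value at a point where no wall is active).
-/

namespace Pool.Agent.Helper46.TW

open Pool.Agent.Helper31.TW

private theorem dot_comb {n : ℕ} (γ v w : Fin n → ℤ) (a b : ℤ) :
    dot γ (a • v + b • w) = a * dot γ v + b * dot γ w := by
  unfold dot
  rw [Finset.mul_sum, Finset.mul_sum, ← Finset.sum_add_distrib]
  refine Finset.sum_congr rfl fun i _ => ?_
  simp only [Pi.add_apply, Pi.smul_apply, smul_eq_mul]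
  ring

private theorem sign_ne {a b : ℤ} (h : Int.sign a = Int.sign b) (hb : b ≠ 0) : a ≠ 0 := by
  rintro rfl
  rw [Int.sign_zero] at h
  exact hb (Int.sign_eq_zero_iff_zero.mp h.symm)

theorem hDST (_hEV1 : StEV1) (hEV2 : StEV2) (hSH2 : StSH2) (hACT : StACT) (hREG : StREG)
    (hNEA : StNEA) : StDST := by
  intro n M 𝓐 K hC
  obtain ⟨v1, -⟩ := hEV2 n M 𝓐 K hC.dep
  suffices H : ∀ m : ℕ, ∀ x y z : Fin n → ℤ, (𝓐.filter (fun γ => dot γ y = 0)).card = m → Pos y →
      Pos z → (∀ γ ∈ 𝓐, dot γ z ≠ 0) → (∀ γ ∈ 𝓐, dot γ y = 0 → ¬ Act M 𝓐 γ x) →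
      (∀ γ ∈ 𝓐, Jmp M 𝓐 γ → Int.sign (dot γ z) = Int.sign (dot γ y)) →
      (Ev M x y ↔ Ev M 0 z) by
    intro x y z hy hz hz0 hna hj
    exact H _ x y z rfl hy hz hz0 hna hj
  intro m
  induction m using Nat.strong_induction_on with
  | _ m ih =>
    intro x y z hm hy hz hz0 hna hj
    -- a wall with a jump is not a zero of `y`
    have hjz : ∀ γ ∈ 𝓐, Jmp M 𝓐 γ → dot γ y ≠ 0 := by
      intro γ hγ hJ h0
      exact hna γ hγ h0 ((hACT n M 𝓐 K hC γ hγ).2.2.2.2.1 hJ x)
    by_cases h0 : ∀ γ ∈ 𝓐, dot γ y ≠ 0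
    · exact hREG n M 𝓐 K hC.dep hC.nrm y z hy hz (fun γ hγ => ⟨h0 γ hγ, hz0 γ hγ⟩)
        (fun γ hγ hJ => (hj γ hγ hJ).symm) x 0
    push Not at h0
    obtain ⟨α, hα, hα0⟩ := h0
    by_cases h1 : ∀ β ∈ 𝓐, dot β y = 0 → β = α
    · -- exactly one zero
      have hgen : Gen 𝓐 α y := ⟨hy, hα0, fun β hβ hne h => hne (h1 β hβ h)⟩
      obtain ⟨u, hu⟩ := hC.nrm.1 α hα
      obtain ⟨s0, hs0⟩ := (hACT n M 𝓐 K hC α hα).2.2.2.1 x y u (hna α hα hα0) hgen hu
      obtain ⟨N0, hN0⟩ := v1 y u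
      obtain ⟨N1, hN1⟩ := hNEA n 𝓐 y u hy
      obtain ⟨s1, hs1⟩ := hN0 (max N0 N1 : ℕ) (by push_cast; exact le_max_left _ _) x
      obtain ⟨hpos, hsg, hze⟩ := hN1 (max N0 N1 : ℕ) (by push_cast; exact le_max_right _ _)
      set N : ℤ := ((max N0 N1 : ℕ) : ℤ) with hN
      have e1 : Ev M x y ↔ Ev M x (N • y + u) := by
        have a1 := hs0 (max s0 s1 : ℕ) (by
          rw [abs_of_nonneg (by positivity)]; push_cast; exact le_max_left _ _)
        have a2 := hs1 (max s0 s1 : ℕ) (by push_cast; exact le_max_right _ _)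
        exact a1.symm.trans a2
      rw [e1]
      refine hREG n M 𝓐 K hC.dep hC.nrm (N • y + u) z hpos hz ?_ ?_ x 0
      · intro γ hγ
        refine ⟨?_, hz0 γ hγ⟩
        by_cases hγy : dot γ y = 0
        · have := h1 γ hγ hγy
          subst this
          rw [hze γ hγ hγy, hu]
          exact one_ne_zero
        · exact sign_ne (hsg γ hγ hγy) hγy
      · intro γ hγ hJ
        rw [hsg γ hγ (hjz γ hγ hJ)]
        exact (hj γ hγ hJ).symm
    · push Not at h1
      obtain ⟨β, hβ, hβ0, hne⟩ := h1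
      obtain ⟨w1, hw1, hw1'⟩ := hC.nrm.2 α hα β hβ (Ne.symm hne)
      obtain ⟨w2, hw2⟩ := hC.nrm.1 α hα
      obtain ⟨B, hB⟩ := hSH2 n M 𝓐 K hC x y w1 w2 hy
      obtain ⟨p, -, ⟨k, hk⟩, hp0, hps⟩ := hB 0 0
      simp only [zero_smul, add_zero] at hps
      set g : Fin n → ℤ := ((p 0 : ℤ) - (p 2 : ℤ)) • w1 + ((p 1 : ℤ) - (p 2 : ℤ)) • w2 with hg
      have hαg : dot α g = (p 1 : ℤ) - (p 2 : ℤ) := by
        rw [hg, dot_comb, hw1, hw2]; ring
      have hβg : dot β g = ((p 0 : ℤ) - (p 2 : ℤ)) * dot β w1 + ((p 1 : ℤ) - (p 2 : ℤ)) * dot β w2 := by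
        rw [hg, dot_comb]
      have hex : ∃ γ ∈ 𝓐, dot γ y = 0 ∧ dot γ g ≠ 0 := by
        by_cases hc : dot α g = 0
        · refine ⟨β, hβ, hβ0, ?_⟩
          have h12 : (p 1 : ℤ) = p 2 := by rw [hαg] at hc; linarith
          have h02 : (p 0 : ℤ) ≠ p 2 := by
            intro h02
            apply hp0
            have a1 : p 1 = p 2 := by exact_mod_cast h12
            have a0 : p 0 = p 2 := by exact_mod_cast h02
            have a2 : p 2 = 0 := by
              fin_cases k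
              · simpa [a0] using hk
              · simpa [a1] using hk
              · simpa using hk
            funext i
            fin_cases i
            · simp [a0, a2]
            · simp [a1, a2]
            · simp [a2]
          rw [hβg, h12, sub_self, zero_mul, add_zero]
          exact mul_ne_zero (sub_ne_zero.mpr h02) hw1'
        · exact ⟨α, hα, hα0, hc⟩
      obtain ⟨N0, hN0⟩ := v1 y g
      obtain ⟨N1, hN1⟩ := hNEA n 𝓐 y g hy
      obtain ⟨s1, hs1⟩ := hN0 (max N0 N1 : ℕ) (by push_cast; exact le_max_left _ _) x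
      obtain ⟨hpos, hsg, hze⟩ := hN1 (max N0 N1 : ℕ) (by push_cast; exact le_max_right _ _)
      set N : ℤ := ((max N0 N1 : ℕ) : ℤ) with hN
      have e1 : Ev M x y ↔ Ev M x (N • y + g) := (hps (s1 : ℤ)).symm.trans (hs1 (s1 : ℤ) le_rfl)
      rw [e1]
      -- the zeros of the new point
      have hzero : ∀ γ ∈ 𝓐, dot γ (N • y + g) = 0 → dot γ y = 0 := by
        intro γ hγ h
        by_contra hγy
        exact sign_ne (hsg γ hγ hγy) hγy h
      refine ih _ ?_ x (N • y + g) z rfl hpos hz hz0 ?_ ?_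
      · rw [← hm]
        apply Finset.card_lt_card
        rw [Finset.ssubset_iff_of_subset]
        · obtain ⟨γ, hγ, hγy, hγg⟩ := hex
          refine ⟨γ, Finset.mem_filter.mpr ⟨hγ, hγy⟩, ?_⟩
          intro hmem
          have := (Finset.mem_filter.mp hmem).2
          rw [hze γ hγ hγy] at this
          exact hγg this
        · intro γ hγ
          rw [Finset.mem_filter] at hγ ⊢
          exact ⟨hγ.1, hzero γ hγ.1 hγ.2⟩
      · intro γ hγ h
        exact hna γ hγ (hzero γ hγ h)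
      · intro γ hγ hJ
        rw [hsg γ hγ (hjz γ hγ hJ)]
        exact hj γ hγ hJ

end Pool.Agent.Helper46.TW
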